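import Mathlib

/-!
# Valuations and numbers of conjugates

Let `K` be an algebraically closed field which is algebraic over `F`, `W` a valuation ring of `K` and
`l` in `F` with `v l < 1` such that `v (F*) = ⟨v l⟩` (`l` is a prime which is unramified in `F`). Let
`t ^ k = a` in `F`, `v a = (v l)⁻¹`, and `(v y) ^ n = (v t) ^ e` with `e` prime to `n`. Then `y` has at
least `n` conjugates over `F(t)`.

PROOF. The `k n` numbers `t ^ j y ^ i` (`j < k`, `i < n`) have valuations which are different modulo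
`v (F*)`: if `v (b t ^ j y ^ i) = v (b' t ^ j' y ^ i')` with `v b = (v l) ^ c`, `v b' = (v l) ^ c'` then
the `k n`-th powers give `c k n - j n - i e = c' k n - j' n - i' e`, so `n ∣ (i - i') e`, `i = i'`,
`j = j'`. So they are linearly independent over `F`, `[F(t, y) : F] ≥ k n`, and `[F(t) : F] ≤ k`.
-/

set_option autoImplicit false

namespace Pool.Agent.Clos

open Polynomial IntermediateField

section val

variable {K Γ : Type*} [Field K] [LinearOrderedCommGroupWithZero Γ] (v : Valuation K Γ)

/-- A finite sum of elements with different valuations is nonzero. -/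
theorem val_sum_ne_zero {ι : Type*} {s : Finset ι} {f : ι → K} (hs : s.Nonempty)
    (h0 : ∀ i ∈ s, f i ≠ 0) (hd : ∀ i ∈ s, ∀ j ∈ s, i ≠ j → v (f i) ≠ v (f j)) :
    ∑ i ∈ s, f i ≠ 0 := by
  classical
  obtain ⟨j, hj, hmax⟩ := s.exists_max_image (fun i => v (f i)) hs
  have h1 : v (∑ i ∈ s, f i) = v (f j) := by
    refine v.map_sum_eq_of_lt hj fun i hi => ?_
    rw [Finset.mem_sdiff, Finset.mem_singleton] at hi
    exact lt_of_le_of_ne (hmax i hi.1) (hd i hi.1 j hj hi.2)
  intro h
  rw [h, map_zero] at h1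
  exact (v.ne_zero_iff.2 (h0 j hj)) h1.symm

/-- Elements whose valuations are different modulo `v (F*)` are linearly independent over `F`. -/
theorem val_linearIndependent {F : Type*} [Field F] [Algebra F K] {ι : Type*} {x : ι → K}
    (hx : ∀ i, x i ≠ 0)
    (hd : ∀ i j, i ≠ j → ∀ a b : F, a ≠ 0 → b ≠ 0 →
      v (algebraMap F K a * x i) ≠ v (algebraMap F K b * x j)) :
    LinearIndependent F x := by
  classical
  rw [linearIndependent_iff']
  intro s g hg
  by_contra hcon
  push Not at hcon
  obtain ⟨i₀, hi₀, hgi₀⟩ := hcon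
  have hinj := FaithfulSMul.algebraMap_injective F K
  have h1 : ∑ i ∈ s.filter (fun i => g i ≠ 0), algebraMap F K (g i) * x i = 0 := by
    have h2 : ∀ i ∈ s, (if g i ≠ 0 then algebraMap F K (g i) * x i else 0) = g i • x i := by
      intro i _
      split_ifs with h
      · rw [Algebra.smul_def]
      · push Not at h
        rw [h, zero_smul]
    rw [Finset.sum_filter, Finset.sum_congr rfl h2, hg]
  refine val_sum_ne_zero v ⟨i₀, Finset.mem_filter.2 ⟨hi₀, hgi₀⟩⟩ ?_ ?_ h1
  · intro i hi
    exact mul_ne_zero ((map_ne_zero_iff _ hinj).2 (Finset.mem_filter.1 hi).2) (hx i)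
  · intro i hi j hj hij
    exact hd i j hij _ _ (Finset.mem_filter.1 hi).2 (Finset.mem_filter.1 hj).2

end val

/-- The exponents. -/
theorem exponents_Val {k n e : ℕ} (hk : 0 < k) (hn : 0 < n) (hc : Nat.Coprime e n) {j j' i i' : ℕ}
    (hj : j < k) (hj' : j' < k) (hi : i < n) (hi' : i' < n) {c c' : ℤ}
    (h : c * k * n - j * n - i * e = c' * k * n - j' * n - i' * e) : i = i' ∧ j = j' := by
  have h1 : (n : ℤ) ∣ ((i : ℤ) - i') * e := ⟨(c - c') * k - (j - j'), by linear_combination -h⟩
  have hc' : IsCoprime (n : ℤ) (e : ℤ) := by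
    rw [Nat.isCoprime_iff_coprime]
    exact hc.symm
  have h2 : (n : ℤ) ∣ (i : ℤ) - i' := hc'.dvd_of_dvd_mul_right h1
  have h3 : (i : ℤ) - i' = 0 := by
    refine Int.eq_zero_of_abs_lt_dvd h2 ?_
    rw [abs_lt]
    constructor <;> omega
  have h4 : i = i' := by omega
  subst h4
  have hn' : (n : ℤ) ≠ 0 := by exact_mod_cast hn.ne'
  have h5 : (c - c') * k = (j : ℤ) - j' := by
    have h6 : ((c - c') * k) * n = ((j : ℤ) - j') * n := by linear_combination h
    exact mul_right_cancel₀ hn' h6
  have h7 : (k : ℤ) ∣ (j : ℤ) - j' := ⟨c - c', by rw [← h5]; ring⟩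
  have h8 : (j : ℤ) - j' = 0 := by
    refine Int.eq_zero_of_abs_lt_dvd h7 ?_
    rw [abs_lt]
    constructor <;> omega
  exact ⟨rfl, by omega⟩

section deg

variable {K Γ : Type*} [Field K] [LinearOrderedCommGroupWithZero Γ] (v : Valuation K Γ)
  {F : Type*} [Field F] [Algebra F K]

/-- The numbers `t ^ j y ^ i` are linearly independent over `F`. -/
theorem linearIndependent_Val {l a : F} {t y : K} {k n e : ℕ} (hk : 0 < k) (hn : 0 < n)
    (hc : Nat.Coprime e n) (hl : v (algebraMap F K l) < 1) (hl0 : l ≠ 0)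
    (hu : ∀ b : F, b ≠ 0 → ∃ c : ℤ, v (algebraMap F K b) = v (algebraMap F K l) ^ c)
    (ht : t ^ k = algebraMap F K a) (ha : v (algebraMap F K a) = (v (algebraMap F K l))⁻¹)
    (hy : v y ^ n = v t ^ e) :
    LinearIndependent F fun x : Fin k × Fin n => t ^ (x.1 : ℕ) * y ^ (x.2 : ℕ) := by
  have hinj := FaithfulSMul.algebraMap_injective F K
  obtain ⟨q, hq⟩ : ∃ q, q = v (algebraMap F K l) := ⟨_, rfl⟩
  rw [← hq] at hl hu ha
  have hq0 : q ≠ 0 := by
    rw [hq]
    exact v.ne_zero_iff.2 ((map_ne_zero_iff _ hinj).2 hl0)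
  have hvt : v t ^ k = q⁻¹ := by rw [← map_pow, ht, ha]
  have hvt0 : v t ≠ 0 := by
    intro h
    rw [h, zero_pow hk.ne'] at hvt
    exact inv_ne_zero hq0 hvt.symm
  have ht0 : t ≠ 0 := v.ne_zero_iff.1 hvt0
  have hvy0 : v y ≠ 0 := by
    intro h
    rw [h, zero_pow hn.ne'] at hy
    exact pow_ne_zero e hvt0 hy.symm
  have hy0 : y ≠ 0 := v.ne_zero_iff.1 hvy0
  have hpow : ∀ (c : ℤ) (j i : ℕ), (q ^ c * (v t ^ j * v y ^ i)) ^ (k * n) =
      q ^ (c * k * n - j * n - i * e) := by
    intro c j i
    have h1 : v t ^ (j * (k * n)) = q ^ (-((j : ℤ) * n)) := by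
      have h2 : v t ^ (j * (k * n)) = (v t ^ k) ^ (j * n) := by
        rw [← pow_mul]
        congr 1
        ring
      rw [h2, hvt, inv_pow, zpow_neg]
      congr 1
      rw [← zpow_natCast]
      congr 1
    have h3 : v y ^ (i * (k * n)) = q ^ (-((i : ℤ) * e)) := by
      have h4 : v y ^ (i * (k * n)) = (v y ^ n) ^ (k * i) := by
        rw [← pow_mul]
        congr 1
        ring
      have h5 : (v t ^ e) ^ (k * i) = (v t ^ k) ^ (i * e) := by
        rw [← pow_mul, ← pow_mul]
        congr 1
        ring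
      rw [h4, hy, h5, hvt, inv_pow, zpow_neg]
      congr 1
      rw [← zpow_natCast]
      congr 1
    rw [mul_pow, mul_pow, ← pow_mul, ← pow_mul, h1, h3, ← zpow_natCast, ← zpow_mul,
      ← zpow_add₀ hq0, ← zpow_add₀ hq0]
    congr 1
    push_cast
    ring
  refine val_linearIndependent v (fun x => mul_ne_zero (pow_ne_zero _ ht0) (pow_ne_zero _ hy0)) ?_
  rintro ⟨j, i⟩ ⟨j', i'⟩ hne b b' hb hb' h
  obtain ⟨c, hcb⟩ := hu b hb
  obtain ⟨c', hcb'⟩ := hu b' hb'
  rw [map_mul, map_mul, map_mul, map_mul, map_pow, map_pow, map_pow, map_pow, hcb, hcb'] at h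
  have h1 := congrArg (fun z : Γ => z ^ (k * n)) h
  simp only [hpow] at h1
  have h2 : c * k * n - (j : ℕ) * n - (i : ℕ) * e = c' * k * n - (j' : ℕ) * n - (i' : ℕ) * e := by
    have hinj' : Function.Injective fun z : ℤ => q ^ z := by
      have hq1 : q < 1 := hl
      exact (zpow_right_strictAnti₀ (zero_lt_iff.2 hq0) hq1).injective
    exact hinj' h1
  obtain ⟨h3, h4⟩ := exponents_Val hk hn hc j.2 j'.2 i.2 i'.2 h2
  exact hne (Prod.ext (Fin.ext h4) (Fin.ext h3))

end deg

section conj

variable {K Γ : Type*} [Field K] [IsAlgClosed K] [CharZero K]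
  [LinearOrderedCommGroupWithZero Γ] (v : Valuation K Γ)
  {F : Type*} [Field F] [Algebra F K] [Algebra.IsAlgebraic F K]

/-- `y` has at least `n` conjugates over `F(t)`. -/
theorem conj_card {l a : F} {t y : K} {k n e : ℕ} (hk : 0 < k) (hn : 0 < n)
    (hc : Nat.Coprime e n) (hl : v (algebraMap F K l) < 1) (hl0 : l ≠ 0)
    (hu : ∀ b : F, b ≠ 0 → ∃ c : ℤ, v (algebraMap F K b) = v (algebraMap F K l) ^ c)
    (ht : t ^ k = algebraMap F K a) (ha : v (algebraMap F K a) = (v (algebraMap F K l))⁻¹)
    (hy : v y ^ n = v t ^ e) :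
    ∃ S : Finset K, n ≤ S.card ∧ ∀ z ∈ S, ∃ σ : K ≃ₐ[F] K, σ t = t ∧ σ y = z := by
  classical
  have hlin := linearIndependent_Val v hk hn hc hl hl0 hu ht ha hy
  -- the fields
  let M : IntermediateField F K := F⟮t⟯
  let N : IntermediateField M K := M⟮y⟯
  have hti : IsIntegral F t := Algebra.IsIntegral.isIntegral t
  have hyi : IsIntegral M y := Algebra.IsIntegral.isIntegral y
  have hfM : FiniteDimensional F M := adjoin.finiteDimensional hti
  have hfN : FiniteDimensional M N := adjoin.finiteDimensional hyi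
  have hfFN : FiniteDimensional F N := FiniteDimensional.trans F M N
  have hMk : Module.finrank F M ≤ k := by
    rw [show Module.finrank F M = (minpoly F t).natDegree from adjoin.finrank hti]
    have h1 : (X ^ k - C a : F[X]) ≠ 0 := X_pow_sub_C_ne_zero hk a
    have h2 : aeval t (X ^ k - C a : F[X]) = 0 := by simp [ht]
    have h3 := natDegree_le_of_dvd (minpoly.dvd F t h2) h1
    rwa [natDegree_X_pow_sub_C] at h3
  have hNn : Module.finrank M N = (minpoly M y).natDegree := adjoin.finrank hyi
  have hkn : k * n ≤ Module.finrank F N := by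
    let g : Fin k × Fin n → N := fun x =>
      (algebraMap M N (AdjoinSimple.gen F t)) ^ (x.1 : ℕ) * (AdjoinSimple.gen M y) ^ (x.2 : ℕ)
    have hg : LinearIndependent F g := by
      refine LinearIndependent.of_comp (N.val.toLinearMap.restrictScalars F) ?_
      have h1 : (N.val.toLinearMap.restrictScalars F) ∘ g =
          fun x : Fin k × Fin n => t ^ (x.1 : ℕ) * y ^ (x.2 : ℕ) := by
        funext x
        simp only [g, Function.comp_apply, LinearMap.coe_restrictScalars,
          AlgHom.toLinearMap_apply, map_mul, map_pow]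
        rfl
      rw [h1]
      exact hlin
    have h2 := hg.fintype_card_le_finrank
    rwa [Fintype.card_prod, Fintype.card_fin, Fintype.card_fin] at h2
  have hn' : n ≤ (minpoly M y).natDegree := by
    rw [← hNn]
    have h1 : Module.finrank F M * Module.finrank M N = Module.finrank F N :=
      Module.finrank_mul_finrank F M N
    have h2 : k * n ≤ k * Module.finrank M N := by
      calc k * n ≤ Module.finrank F N := hkn
        _ = Module.finrank F M * Module.finrank M N := h1.symm
        _ ≤ k * Module.finrank M N := Nat.mul_le_mul_right _ hMk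
    exact Nat.le_of_mul_le_mul_left h2 hk
  -- the conjugates
  have hsep : (minpoly M y).Separable := (minpoly.irreducible hyi).separable
  have hcard : ((minpoly M y).aroots K).toFinset.card = (minpoly M y).natDegree := by
    rw [← Polynomial.card_rootSet_eq_natDegree (K := K) hsep (IsAlgClosed.splits _)]
    simp only [Polynomial.rootSet_def, Fintype.card_coe, Finset.coe_sort_coe]
  refine ⟨((minpoly M y).aroots K).toFinset, by rw [hcard]; exact hn', fun z hz => ?_⟩
  have hz' : z ∈ (minpoly M y).aroots K := Multiset.mem_toFinset.1 hz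
  have h1 : IsConjRoot M y z := (isConjRoot_iff_mem_minpoly_aroots hyi).2 hz'
  have hnor : Normal M K := normal_iff.2 fun x =>
    ⟨Algebra.IsIntegral.isIntegral x, IsAlgClosed.splits _⟩
  obtain ⟨σ, hσ⟩ := (isConjRoot_iff_exists_algEquiv.1 h1)
  refine ⟨(σ.symm).restrictScalars F, ?_, ?_⟩
  · show σ.symm t = t
    have h2 : algebraMap M K (AdjoinSimple.gen F t) = t := AdjoinSimple.algebraMap_gen F t
    rw [← h2]
    exact σ.symm.commutes _
  · show σ.symm y = z
    rw [AlgEquiv.symm_apply_eq]
    exact hσ.symm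

end conj

end Pool.Agent.Clos
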